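import Pool.Agent.N742.HN.Stm

set_option autoImplicit false

open MeasureTheory Complex Filter Topology

namespace Pool.Agent.N742.HN

theorem asm_emb_cont : Continuous emb := by
  unfold emb; exact Complex.continuous_ofReal

theorem asm_cj_cj (z : ℂ) : cj (cj z) = z := by simp [cj]

theorem asm_cj_emb (x : ℝ) : cj (emb x) = emb x := by simp [cj, emb]

theorem asm_cj_cont : Continuous cj := Complex.continuous_conj

theorem asm_sym (E : Set ℝ) : ∀ z ∈ (emb '' E)ᶜ, cj z ∈ (emb '' E)ᶜ := by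
  intro z hz h
  apply hz
  obtain ⟨x, hx, he⟩ := h
  refine ⟨x, hx, ?_⟩
  have := congrArg cj he
  rw [asm_cj_cj, asm_cj_emb] at this
  exact this

theorem asm_H_sub (E : Set ℝ) : H ⊆ (emb '' E)ᶜ := by
  rintro z hz ⟨x, -, rfl⟩
  simp [H, emb] at hz

theorem asm_H_open : IsOpen H := isOpen_lt continuous_const Complex.continuous_im

theorem asm_LocRe_mono {U V : Set ℂ} {u : ℂ → ℝ} (h : LocRe U u) (hVU : V ⊆ U) (hV : IsOpen V) :
    LocRe V u := by
  intro z hz
  obtain ⟨r, hr, hsub, g, hg, hu⟩ := h z (hVU hz)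
  obtain ⟨s, hs, hs'⟩ := Metric.isOpen_iff.mp hV z hz
  refine ⟨min r s, lt_min hr hs, (Metric.ball_subset_ball (min_le_right _ _)).trans hs', g,
    hg.mono (Metric.ball_subset_ball (min_le_left _ _)), ?_⟩
  intro w hw
  exact hu w (Metric.ball_subset_ball (min_le_left _ _) hw)

theorem proof_CAP (hXC : S_XC) (hCOIN : S_COIN) (hEN : S_EN) : S_CAP := by
  obtain ⟨P, hP, hPn⟩ := hCOIN
  obtain ⟨hint, hdiag⟩ := hEN P hP hPn
  have := hP
  have hXc : Continuous X := hXC
  set T : (ℕ → Bool) → ℂ := fun ω => emb (X ω) with hT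
  have hTc : Continuous T := asm_emb_cont.comp hXc
  have hTm : Measurable T := hTc.measurable
  have hprob : IsProbabilityMeasure (P.map T) := Measure.isProbabilityMeasure_map hTm.aemeasurable
  refine ⟨P.map T, hprob, ?_, ?_, ?_⟩
  · refine ⟨fun z => ?_⟩
    have h1 : (P.map T) {z} = P (T ⁻¹' {z}) := Measure.map_apply hTm (measurableSet_singleton z)
    have h2 : (P.prod P) ((T ⁻¹' {z}) ×ˢ (T ⁻¹' {z})) = 0 := by
      refine measure_mono_null ?_ hdiag
      rintro ⟨a, b⟩ ⟨ha, hb⟩
      simp only [Set.mem_preimage, Set.mem_singleton_iff] at ha hb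
      have : T a = T b := ha.trans hb.symm
      simp only [hT, emb] at this
      exact_mod_cast this
    rw [Measure.prod_prod] at h2
    rw [h1]
    rcases mul_eq_zero.mp h2 with h | h <;> exact h
  · have hclosed : IsClosed (emb '' Set.range X) := by
      have : IsCompact (emb '' Set.range X) := (isCompact_range hXc).image asm_emb_cont
      exact this.isClosed
    rw [Measure.map_apply hTm hclosed.measurableSet.compl]
    have : T ⁻¹' (emb '' Set.range X)ᶜ = ∅ := by
      ext ω
      simp [hT]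
    rw [this]; simp
  · have hm : (P.map T).prod (P.map T) = (P.prod P).map (Prod.map T T) := by
      rw [Measure.map_prod_map P P hTm hTm]
    rw [hm]
    have hgm : Measurable (fun p : ℂ × ℂ => Real.log ‖p.1 - p.2‖) :=
      Real.measurable_log.comp ((measurable_fst.sub measurable_snd).norm)
    rw [integrable_map_measure hgm.aestronglyMeasurable (hTm.prodMap hTm).aemeasurable]
    refine hint.congr (Filter.Eventually.of_forall ?_)
    intro p
    simp only [Function.comp, Prod.map, hT, emb]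
    rw [← Complex.ofReal_sub, Complex.norm_real, Real.norm_eq_abs]

theorem proof_SYM (hCOT : S_COT) (hPHI : S_PHI) (hDISC : S_DISC) (hMEAN : S_MEAN)
    (hREF : S_REF) : S_SYM := by
  intro E f u hE hE0 hf hu hfu z hz
  have hclosed : IsClosed (emb '' E) := (hE.image asm_emb_cont).isClosed
  have hopen : IsOpen (emb '' E)ᶜ := hclosed.isOpen_compl
  obtain ⟨hf2, hu2, hfu2⟩ := hREF _ f u (asm_sym E) hopen hf hu hfu
  set f2 : ℂ → ℂ := fun z => cj (f (cj z)) with hf2def
  set u2 : ℂ → ℝ := fun z => u (cj z) with hu2def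
  have hHs := asm_H_sub E
  set a := z.re
  set b := z.im
  have hb : 0 < b := hz
  have hzab : (a : ℂ) + b * Complex.I = z := Complex.re_add_im z
  have m1 := hMEAN f u a b hb (hf.mono hHs) (asm_LocRe_mono hu hHs asm_H_open)
    (fun w hw => hfu w (hHs hw))
  have m2 := hMEAN f2 u2 a b hb (hf2.mono hHs) (asm_LocRe_mono hu2 hHs asm_H_open)
    (fun w hw => hfu2 w (hHs hw))
  rw [hzab] at m1 m2
  obtain ⟨p0, pd, pH, pre, pt⟩ := hPHI a b hb
  set h : ℂ → ℂ := fun w => f (phi a b w) - cj (f2 (phi a b w)) with hh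
  have hc1 : ContinuousOn (fun w => f (phi a b w)) (Metric.ball 0 1) :=
    (hf.continuousOn.mono hHs).comp pd.continuousOn pH
  have hc2 : ContinuousOn (fun w => f2 (phi a b w)) (Metric.ball 0 1) :=
    (hf2.continuousOn.mono hHs).comp pd.continuousOn pH
  have hci : ∀ {g : ℂ → ℂ}, ContinuousOn g (Metric.ball 0 1) → ∀ r ∈ Set.Ioo (0 : ℝ) 1,
      CircleIntegrable g 0 r := by
    intro g hg r hr
    refine ContinuousOn.circleIntegrable hr.1.le (hg.mono ?_)
    intro w hw
    simp only [Metric.mem_sphere, dist_zero_right] at hw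
    simp [hw, hr.2]
  have hciR : ∀ {g : ℂ → ℝ}, ContinuousOn g (Metric.ball 0 1) → ∀ r ∈ Set.Ioo (0 : ℝ) 1,
      CircleIntegrable g 0 r := by
    intro g hg r hr
    refine ContinuousOn.circleIntegrable hr.1.le (hg.mono ?_)
    intro w hw
    simp only [Metric.mem_sphere, dist_zero_right] at hw
    simp [hw, hr.2]
  have hcj2 : ContinuousOn (fun w => cj (f2 (phi a b w))) (Metric.ball 0 1) :=
    asm_cj_cont.comp_continuousOn hc2
  have hhc : ContinuousOn h (Metric.ball 0 1) := hc1.sub hcj2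
  have key := hDISC h (f z - cj (f2 z)) (2 * (u z + u2 z)) hhc ?_ ?_ ?_
  · have : f z = cj (f2 z) := sub_eq_zero.mp key
    rw [this, hf2def]
    simp only [asm_cj_cj]
  · intro r hr
    have e1 : Real.circleAverage h 0 r = Real.circleAverage (fun w => f (phi a b w)) 0 r
        - Real.circleAverage (fun w => cj (f2 (phi a b w))) 0 r :=
      Real.circleAverage_fun_sub (hci hc1 r hr) (hci hcj2 r hr)
    have e2 : Real.circleAverage (fun w => cj (f2 (phi a b w))) 0 r
        = cj (Real.circleAverage (fun w => f2 (phi a b w)) 0 r) := by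
      have := ContinuousLinearMap.circleAverage_comp_comm (Complex.conjCLE : ℂ →L[ℝ] ℂ)
        (hci hc2 r hr)
      simpa [cj, Function.comp_def] using this
    rw [e1, e2, (m1 r hr).1, (m2 r hr).1]
  · intro r hr
    have c1 : ContinuousOn (fun w => ‖f (phi a b w)‖ ^ 2) (Metric.ball 0 1) := hc1.norm.pow 2
    have c2 : ContinuousOn (fun w => ‖f2 (phi a b w)‖ ^ 2) (Metric.ball 0 1) := hc2.norm.pow 2
    have ch : ContinuousOn (fun w => ‖h w‖ ^ 2) (Metric.ball 0 1) := hhc.norm.pow 2
    have hle : Real.circleAverage (fun w => ‖h w‖ ^ 2) 0 r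
        ≤ Real.circleAverage (fun w => 2 * (‖f (phi a b w)‖ ^ 2 + ‖f2 (phi a b w)‖ ^ 2)) 0 r := by
      apply Real.circleAverage_mono (hciR ch r hr)
      · exact hciR (continuousOn_const.mul (c1.add c2)) r hr
      · intro w _
        have hn : ‖cj (f2 (phi a b w))‖ = ‖f2 (phi a b w)‖ := by simp [cj]
        have h3 : ‖h w‖ ≤ ‖f (phi a b w)‖ + ‖f2 (phi a b w)‖ := by
          have := norm_sub_le (f (phi a b w)) (cj (f2 (phi a b w)))
          rw [hn] at this; exact this
        have h4 := norm_nonneg (h w)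
        nlinarith [sq_nonneg (‖f (phi a b w)‖ - ‖f2 (phi a b w)‖)]
    have e3 : Real.circleAverage (fun w => 2 * (‖f (phi a b w)‖ ^ 2 + ‖f2 (phi a b w)‖ ^ 2)) 0 r
        = 2 * (Real.circleAverage (fun w => ‖f (phi a b w)‖ ^ 2) 0 r
          + Real.circleAverage (fun w => ‖f2 (phi a b w)‖ ^ 2) 0 r) := by
      rw [← Real.circleAverage_fun_add (hciR c1 r hr) (hciR c2 r hr)]
      have := Real.circleAverage_fun_smul (a := (2 : ℝ)) (f := fun w => ‖f (phi a b w)‖ ^ 2 + ‖f2 (phi a b w)‖ ^ 2) (c := 0) (R := r)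
      simpa [smul_eq_mul] using this
    have h5 := (m1 r hr).2
    have h6 := (m2 r hr).2
    linarith
  · have hnull := hCOT E a b hb hE0
    have hae : ∀ᵐ θ : ℝ, ¬ (θ ∈ Set.Ioo 0 (2 * Real.pi) ∧ phi a b (circleMap 0 1 θ) ∈ emb '' E) := by
      rw [ae_iff]
      simp only [not_not]
      exact hnull
    filter_upwards [hae] with θ hθ hθI
    have hnot : phi a b (circleMap 0 1 θ) ∈ (emb '' E)ᶜ := fun hh => hθ ⟨hθI, hh⟩
    obtain ⟨x, hx⟩ := pre θ hθI
    have ht := pt θ hθI
    have hfa : ContinuousAt f (phi a b (circleMap 0 1 θ)) :=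
      (hf.continuousOn.continuousAt (hopen.mem_nhds hnot))
    have hcjx : cj (phi a b (circleMap 0 1 θ)) = phi a b (circleMap 0 1 θ) := by
      rw [hx, asm_cj_emb]
    have t1 : Tendsto (fun r : ℝ => f (phi a b (circleMap 0 r θ))) (𝓝[<] 1)
        (𝓝 (f (phi a b (circleMap 0 1 θ)))) := hfa.tendsto.comp ht
    have t2 : Tendsto (fun r : ℝ => f (cj (phi a b (circleMap 0 r θ)))) (𝓝[<] 1)
        (𝓝 (f (phi a b (circleMap 0 1 θ)))) := by
      have t3 : Tendsto (fun r : ℝ => cj (phi a b (circleMap 0 r θ))) (𝓝[<] 1)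
          (𝓝 (cj (phi a b (circleMap 0 1 θ)))) := (asm_cj_cont.tendsto _).comp ht
      rw [hcjx] at t3
      exact hfa.tendsto.comp t3
    have t4 := t1.sub t2
    rw [sub_self] at t4
    refine t4.congr (fun r => ?_)
    simp only [hh, hf2def, asm_cj_cj]

theorem proof_CST (hSYM : S_SYM) (hREF : S_REF) (hRIG : S_RIG) : S_CST := by
  intro E f u hE hE0 hf hu hfu
  have hclosed : IsClosed (emb '' E) := (hE.image asm_emb_cont).isClosed
  have hopen : IsOpen (emb '' E)ᶜ := hclosed.isOpen_compl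
  obtain ⟨hf2, hu2, hfu2⟩ := hREF _ f u (asm_sym E) hopen hf hu hfu
  have hHs := asm_H_sub E
  have hsym := hSYM E f u hE hE0 hf hu hfu
  obtain ⟨c, hc⟩ := hRIG f (fun z => cj (f (cj z))) (hf.mono hHs) (hf2.mono hHs) (by
    intro z hz
    rw [asm_cj_cj]
    exact hsym z hz)
  refine ⟨c, ?_⟩
  intro z hz
  rcases lt_trichotomy z.im 0 with him | him | him
  · have h1 : cj z ∈ H := by simp [H, cj, him]
    have h2 := hsym _ h1
    rw [asm_cj_cj] at h2
    rw [← h2]
    exact hc _ h1
  · have hfa : ContinuousAt f z := (hf.continuousOn.continuousAt (hopen.mem_nhds hz))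
    have ht : Tendsto (fun n : ℕ => z + ((1 / ((n : ℝ) + 1) : ℝ) : ℂ) * Complex.I) atTop (𝓝 z) := by
      have h0 : Tendsto (fun n : ℕ => ((1 / ((n : ℝ) + 1) : ℝ) : ℂ)) atTop (𝓝 ((0 : ℝ) : ℂ)) :=
        (Complex.continuous_ofReal.tendsto 0).comp tendsto_one_div_add_atTop_nhds_zero_nat
      have h1 := (h0.mul_const Complex.I).const_add z
      simpa using h1
    have t1 := hfa.tendsto.comp ht
    have t2 : Tendsto (f ∘ fun n : ℕ => z + ((1 / ((n : ℝ) + 1) : ℝ) : ℂ) * Complex.I) atTop (𝓝 c) := by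
      refine tendsto_const_nhds.congr (fun n => ?_)
      symm
      apply hc
      have : (0 : ℝ) < 1 / ((n : ℝ) + 1) := by positivity
      simp only [H, Set.mem_ofPred_eq, Complex.add_im, Complex.im_ofReal_mul, Complex.I_im, mul_one]
      rw [him]; simpa using this
    exact tendsto_nhds_unique t1 t2
  · exact hc z him

end Pool.Agent.N742.HN
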