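import Pool.Agent.N742.HN.Stm

set_option autoImplicit false

open MeasureTheory

namespace Pool.Agent.N742.HN

private noncomputable def coin : Measure Bool := (PMF.uniformOfFintype Bool).toMeasure

private instance coin_prob : IsProbabilityMeasure coin := by
  unfold coin; infer_instance

private lemma coin_single (b : Bool) : coin {b} = 1 / 2 := by
  unfold coin
  rw [PMF.toMeasure_apply_singleton _ _ (measurableSet_singleton b)]
  simp

theorem proof_COIN : S_COIN := by
  refine ⟨Measure.infinitePi (fun _ : ℕ => coin), inferInstance, fun n => ?_⟩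
  have hS : MeasurableSet {p : (ℕ → Bool) × (ℕ → Bool) | ∀ i < n, p.1 i = p.2 i} := by
    have : {p : (ℕ → Bool) × (ℕ → Bool) | ∀ i < n, p.1 i = p.2 i}
        = ⋂ i : ℕ, ⋂ _ : i < n, {p : (ℕ → Bool) × (ℕ → Bool) | p.1 i = p.2 i} := by
      ext p; simp
    rw [this]
    refine MeasurableSet.iInter fun i => MeasurableSet.iInter fun _ => ?_
    exact measurableSet_eq_fun ((measurable_pi_apply i).comp measurable_fst)
      ((measurable_pi_apply i).comp measurable_snd)
  rw [Measure.prod_apply hS]
  have hfib : ∀ w : ℕ → Bool,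
      (Measure.infinitePi (fun _ : ℕ => coin))
        (Prod.mk w ⁻¹' {p : (ℕ → Bool) × (ℕ → Bool) | ∀ i < n, p.1 i = p.2 i}) = (1 / 2) ^ n := by
    intro w
    have h1 : Prod.mk w ⁻¹' {p : (ℕ → Bool) × (ℕ → Bool) | ∀ i < n, p.1 i = p.2 i}
        = Set.pi (Finset.range n : Set ℕ) (fun i => {w i}) := by
      ext w'
      simp only [Set.mem_preimage, Set.mem_setOf_eq, Set.mem_pi, Finset.coe_range, Set.mem_Iio,
        Set.mem_singleton_iff]
      exact ⟨fun h i hi => (h i hi).symm, fun h i hi => (h i hi).symm⟩
    rw [h1, Measure.infinitePi_pi _ (fun i _ => measurableSet_singleton _)]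
    simp [coin_single]
  simp only [hfib]
  simp

end Pool.Agent.N742.HN
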