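import Pool.Agent.N742.HN.Stm

/-!
# Project HN, part CON: the complement of a compact null set of the real line is connected
(helper850)
-/

set_option autoImplicit false

open MeasureTheory Complex Filter Topology

namespace Pool.Agent.N742.HN

private lemma con_im {E : Set ℝ} {z : ℂ} (hz : z ∈ emb '' E) : z.im = 0 := by
  obtain ⟨x, _, rfl⟩ := hz
  exact Complex.ofReal_im x

theorem proof_CON : S_CON := by
  intro E hE hE0
  have hcont : Continuous emb := Complex.continuous_ofReal
  refine ⟨(hE.image hcont).isClosed.isOpen_compl, ?_⟩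
  obtain ⟨x0, hx0⟩ : ∃ x0 : ℝ, x0 ∉ E := by
    by_contra hcon
    push Not at hcon
    have h1 : E = Set.univ := Set.eq_univ_of_forall hcon
    rw [h1, Real.volume_univ] at hE0
    exact ENNReal.top_ne_zero hE0
  have hx0' : emb x0 ∉ emb '' E := by
    rintro ⟨y, hy, hyx⟩
    have h1 : y = x0 := Complex.ofReal_injective hyx
    exact hx0 (h1 ▸ hy)
  have him0 : (emb x0).im = 0 := Complex.ofReal_im x0
  have hA : IsPreconnected ({z : ℂ | 0 < z.im} ∪ {z : ℂ | z.im = 0 ∧ z ∉ emb '' E}) := by
    refine (convex_halfSpace_im_gt 0).isPreconnected.subset_closure Set.subset_union_left ?_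
    rw [Complex.closure_setOfPred_lt_im]
    rintro z (hz | hz)
    · have h1 : 0 < z.im := hz
      exact h1.le
    · exact hz.1.ge
  have hB : IsPreconnected ({z : ℂ | z.im < 0} ∪ {z : ℂ | z.im = 0 ∧ z ∉ emb '' E}) := by
    refine (convex_halfSpace_im_lt 0).isPreconnected.subset_closure Set.subset_union_left ?_
    rw [Complex.closure_setOfPred_im_lt]
    rintro z (hz | hz)
    · have h1 : z.im < 0 := hz
      exact h1.le
    · exact hz.1.le
  have hU : (emb '' E)ᶜ = ({z : ℂ | 0 < z.im} ∪ {z : ℂ | z.im = 0 ∧ z ∉ emb '' E}) ∪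
      ({z : ℂ | z.im < 0} ∪ {z : ℂ | z.im = 0 ∧ z ∉ emb '' E}) := by
    ext z
    constructor
    · intro hz
      rcases lt_trichotomy z.im 0 with h | h | h
      · exact Or.inr (Or.inl h)
      · exact Or.inl (Or.inr ⟨h, hz⟩)
      · exact Or.inl (Or.inl h)
    · rintro ((h | h) | (h | h)) hz
      · exact absurd (con_im hz) (ne_of_gt h)
      · exact h.2 hz
      · exact absurd (con_im hz) (ne_of_lt h)
      · exact h.2 hz
  rw [hU]
  exact ⟨⟨emb x0, Or.inl (Or.inr ⟨him0, hx0'⟩)⟩,
    hA.union (emb x0) (Or.inr ⟨him0, hx0'⟩) (Or.inr ⟨him0, hx0'⟩) hB⟩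


end Pool.Agent.N742.HN
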