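import Mathlib

set_option autoImplicit false

open MeasureTheory Complex Filter Topology

namespace Pool.Agent.N742.HN

/-- the point of the middle third Cantor set with ternary digits `2 ω i` -/
noncomputable def X (ω : ℕ → Bool) : ℝ :=
  ∑' i : ℕ, (if ω i then (2 : ℝ) else 0) * (1 / 3 : ℝ) ^ (i + 1)

/-- the embedding of the real line into the plane -/
noncomputable def emb (x : ℝ) : ℂ := (x : ℂ)

/-- the upper half plane -/
def H : Set ℂ := {z : ℂ | 0 < z.im}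

/-- complex conjugation -/
noncomputable def cj (z : ℂ) : ℂ := (starRingEnd ℂ) z

/-- the conformal map of the unit disc onto the upper half plane with `phi a b 0 = a + b I` -/
noncomputable def phi (a b : ℝ) (w : ℂ) : ℂ := (a : ℂ) + (b : ℂ) * (Complex.I * ((1 + w) / (1 - w)))

/-- `u` is locally the real part of a holomorphic function on `U` -/
def LocRe (U : Set ℂ) (u : ℂ → ℝ) : Prop :=
  ∀ z ∈ U, ∃ r > 0, Metric.ball z r ⊆ U ∧
    ∃ g : ℂ → ℂ, DifferentiableOn ℂ g (Metric.ball z r) ∧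
      ∀ w ∈ Metric.ball z r, u w = (g w).re

/-- continuity of X, separation, range of X is a null set -/
def S_XC : Prop := Continuous X

def S_SEP : Prop :=
  (∀ ω : ℕ → Bool, 0 ≤ X ω ∧ X ω ≤ 1) ∧
  ∀ (ω ω' : ℕ → Bool) (n : ℕ), (∀ i < n, ω i = ω' i) → ω n ≠ ω' n →
    (1 / 3 : ℝ) ^ (n + 1) ≤ |X ω - X ω'|

def S_NULL : Prop := volume (Set.range X) = 0

def S_COIN : Prop :=
  ∃ P : Measure (ℕ → Bool), IsProbabilityMeasure P ∧
    ∀ n : ℕ, (P.prod P) {p : (ℕ → Bool) × (ℕ → Bool) | ∀ i < n, p.1 i = p.2 i} ≤ (1 / 2) ^ n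

def S_EN : Prop :=
  ∀ P : Measure (ℕ → Bool), IsProbabilityMeasure P →
    (∀ n : ℕ, (P.prod P) {p : (ℕ → Bool) × (ℕ → Bool) | ∀ i < n, p.1 i = p.2 i} ≤ (1 / 2) ^ n) →
    Integrable (fun p : (ℕ → Bool) × (ℕ → Bool) => Real.log |X p.1 - X p.2|) (P.prod P) ∧
    (P.prod P) {p : (ℕ → Bool) × (ℕ → Bool) | X p.1 = X p.2} = 0

def S_CAP : Prop :=
  ∃ μ : Measure ℂ, IsProbabilityMeasure μ ∧ NoAtoms μ ∧ μ (emb '' Set.range X)ᶜ = 0 ∧
    Integrable (fun p : ℂ × ℂ => Real.log ‖p.1 - p.2‖) (μ.prod μ)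

def S_CON : Prop :=
  ∀ E : Set ℝ, IsCompact E → volume E = 0 → IsOpen (emb '' E)ᶜ ∧ IsConnected (emb '' E)ᶜ

/-- the exceptional set of directions is a null set -/
def S_COT : Prop :=
  ∀ (E : Set ℝ) (a b : ℝ), 0 < b → volume E = 0 →
    volume {θ : ℝ | θ ∈ Set.Ioo 0 (2 * Real.pi) ∧ phi a b (circleMap 0 1 θ) ∈ emb '' E} = 0

/-- elementary properties of the conformal map -/
def S_PHI : Prop :=
  ∀ a b : ℝ, 0 < b →
    phi a b 0 = (a : ℂ) + b * Complex.I ∧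
    DifferentiableOn ℂ (phi a b) (Metric.ball 0 1) ∧
    (∀ w ∈ Metric.ball (0 : ℂ) 1, phi a b w ∈ H) ∧
    (∀ θ ∈ Set.Ioo 0 (2 * Real.pi), ∃ x : ℝ, phi a b (circleMap 0 1 θ) = emb x) ∧
    (∀ θ ∈ Set.Ioo 0 (2 * Real.pi),
      Tendsto (fun r : ℝ => phi a b (circleMap 0 r θ)) (𝓝[<] 1) (𝓝 (phi a b (circleMap 0 1 θ))))

/-- a function on the disc with bounded quadratic means, the mean value property and boundary
values zero almost everywhere vanishes at the centre -/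
def S_DISC : Prop :=
  ∀ (h : ℂ → ℂ) (c : ℂ) (M : ℝ), ContinuousOn h (Metric.ball 0 1) →
    (∀ r ∈ Set.Ioo (0 : ℝ) 1, Real.circleAverage h 0 r = c) →
    (∀ r ∈ Set.Ioo (0 : ℝ) 1, Real.circleAverage (fun w => ‖h w‖ ^ 2) 0 r ≤ M) →
    (∀ᵐ θ : ℝ, θ ∈ Set.Ioo 0 (2 * Real.pi) →
      Tendsto (fun r : ℝ => h (circleMap 0 r θ)) (𝓝[<] 1) (𝓝 0)) →
    c = 0

/-- means of a function with a harmonic majorant in the upper half plane -/
def S_MEAN : Prop :=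
  ∀ (f : ℂ → ℂ) (u : ℂ → ℝ) (a b : ℝ), 0 < b → DifferentiableOn ℂ f H → LocRe H u →
    (∀ z ∈ H, ‖f z‖ ^ 2 ≤ u z) →
    ∀ r ∈ Set.Ioo (0 : ℝ) 1,
      Real.circleAverage (fun w => f (phi a b w)) 0 r = f ((a : ℂ) + b * Complex.I) ∧
      Real.circleAverage (fun w => ‖f (phi a b w)‖ ^ 2) 0 r ≤ u ((a : ℂ) + b * Complex.I)

/-- reflection in the real axis -/
def S_REF : Prop :=
  ∀ (U : Set ℂ) (f : ℂ → ℂ) (u : ℂ → ℝ), (∀ z ∈ U, cj z ∈ U) → IsOpen U → DifferentiableOn ℂ f U →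
    LocRe U u → (∀ z ∈ U, ‖f z‖ ^ 2 ≤ u z) →
    DifferentiableOn ℂ (fun z => cj (f (cj z))) U ∧ LocRe U (fun z => u (cj z)) ∧
    ∀ z ∈ U, ‖cj (f (cj z))‖ ^ 2 ≤ u (cj z)

/-- a holomorphic function which is also antiholomorphic is constant -/
def S_RIG : Prop :=
  ∀ f g : ℂ → ℂ, DifferentiableOn ℂ f H → DifferentiableOn ℂ g H → (∀ z ∈ H, f z = cj (g z)) →
    ∃ c : ℂ, ∀ z ∈ H, f z = c

/-- the two boundary functions agree, so the function is symmetric -/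
def S_SYM : Prop :=
  ∀ (E : Set ℝ) (f : ℂ → ℂ) (u : ℂ → ℝ), IsCompact E → volume E = 0 →
    DifferentiableOn ℂ f (emb '' E)ᶜ → LocRe (emb '' E)ᶜ u →
    (∀ z ∈ (emb '' E)ᶜ, ‖f z‖ ^ 2 ≤ u z) → ∀ z ∈ H, f z = f (cj z)

/-- the space `H²` of the complement of `E` consists of constants -/
def S_CST : Prop :=
  ∀ (E : Set ℝ) (f : ℂ → ℂ) (u : ℂ → ℝ), IsCompact E → volume E = 0 →
    DifferentiableOn ℂ f (emb '' E)ᶜ → LocRe (emb '' E)ᶜ u →
    (∀ z ∈ (emb '' E)ᶜ, ‖f z‖ ^ 2 ≤ u z) → ∃ c : ℂ, ∀ z ∈ (emb '' E)ᶜ, f z = c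

end Pool.Agent.N742.HN
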