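import Mathlib
import Pool.Agent.N742.HN.Stm

set_option autoImplicit false

open MeasureTheory Complex Filter Topology

namespace Pool.Agent.N742.HN

private theorem cot_phi (a b θ : ℝ) (hθ : θ ∈ Set.Ioo 0 (2 * Real.pi)) :
    phi a b (circleMap 0 1 θ) = ((a - b * (Real.cos (θ / 2) / Real.sin (θ / 2)) : ℝ) : ℂ) := by
  have hs : 0 < Real.sin (θ / 2) :=
    Real.sin_pos_of_pos_of_lt_pi (by linarith [hθ.1]) (by linarith [hθ.2])
  set w : ℂ := Complex.exp (((θ / 2 : ℝ) : ℂ) * Complex.I) with hw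
  have hw0 : w ≠ 0 := Complex.exp_ne_zero _
  have hwcs : w = ((Real.cos (θ / 2) : ℝ) : ℂ) + ((Real.sin (θ / 2) : ℝ) : ℂ) * Complex.I := by
    rw [hw, Complex.exp_mul_I, Complex.ofReal_cos, Complex.ofReal_sin]
  have hcirc : circleMap 0 1 θ = w ^ 2 := by
    rw [circleMap, hw, ← Complex.exp_nat_mul]
    simp only [Complex.ofReal_one, one_mul, zero_add]
    congr 1
    push_cast
    ring
  set c : ℝ := Real.cos (θ / 2) with hc
  set s : ℝ := Real.sin (θ / 2) with hsdef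
  have hcs : (c : ℂ) ^ 2 + (s : ℂ) ^ 2 = 1 := by
    have : c ^ 2 + s ^ 2 = 1 := Real.cos_sq_add_sin_sq _
    exact_mod_cast this
  have hI : Complex.I ^ 2 = -1 := Complex.I_sq
  have h1 : 1 + w ^ 2 = 2 * c * w := by
    rw [hwcs]; linear_combination (-1 : ℂ) * hcs + (s : ℂ) ^ 2 * hI
  have h2 : 1 - w ^ 2 = -2 * Complex.I * s * w := by
    rw [hwcs]; linear_combination (-1 : ℂ) * hcs + (s : ℂ) ^ 2 * hI
  have hs0 : (s : ℂ) ≠ 0 := by exact_mod_cast hs.ne'
  rw [phi, hcirc, h1, h2]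
  push_cast
  have hI0 : Complex.I ≠ 0 := Complex.I_ne_zero
  have h3 : Complex.I * (2 * (c : ℂ) * w / (-2 * Complex.I * s * w)) = - ((c : ℂ) / s) := by
    field_simp
  rw [h3]; ring

private theorem cot_theta (a b θ x : ℝ) (hb : 0 < b) (hθ : θ ∈ Set.Ioo 0 (2 * Real.pi))
    (h : phi a b (circleMap 0 1 θ) = emb x) : θ = Real.pi - 2 * Real.arctan ((a - x) / b) := by
  rw [cot_phi a b θ hθ, emb] at h
  have h' : a - b * (Real.cos (θ / 2) / Real.sin (θ / 2)) = x := by exact_mod_cast h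
  have h1 : (a - x) / b = Real.tan (Real.pi / 2 - θ / 2) := by
    rw [Real.tan_pi_div_two_sub, Real.tan_eq_sin_div_cos, inv_div, ← h']
    field_simp
    ring
  rw [h1, Real.arctan_tan (by linarith [hθ.2]) (by linarith [hθ.1])]
  ring

theorem proof_COT : S_COT := by
  intro E a b hb hE
  have hsub : {θ : ℝ | θ ∈ Set.Ioo 0 (2 * Real.pi) ∧ phi a b (circleMap 0 1 θ) ∈ emb '' E} ⊆
      (fun x : ℝ => Real.pi - 2 * Real.arctan ((a - x) / b)) '' E := by
    rintro θ ⟨hθ, x, hx, hxe⟩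
    exact ⟨x, hx, (cot_theta a b θ x hb hθ hxe.symm).symm⟩
  refine measure_mono_null hsub ?_
  refine MeasureTheory.addHaar_image_eq_zero_of_differentiableOn_of_addHaar_eq_zero volume ?_ hE
  have : Differentiable ℝ (fun x : ℝ => Real.pi - 2 * Real.arctan ((a - x) / b)) := by
    have h1 : Differentiable ℝ (fun x : ℝ => (a - x) / b) := by fun_prop
    exact (differentiable_const _).sub ((h1.arctan).const_mul 2)
  exact this.differentiableOn

end Pool.Agent.N742.HN
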