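import Pool.Agent.N742.HN.Stm

set_option autoImplicit false

/-!
Project HN (helper742), leaf DISC (helper736).
-/

open MeasureTheory Complex Filter Topology

namespace Pool.Agent.N742.HN

private lemma disc_pt {x A : ℝ} (hx : 0 ≤ x) (hA : 0 < A) : x ≤ min x A + x ^ 2 / A := by
  rcases le_total x A with h | h
  · rw [min_eq_left h]
    have : 0 ≤ x ^ 2 / A := by positivity
    linarith
  · rw [min_eq_right h]
    have : x ≤ x ^ 2 / A := by
      rw [le_div_iff₀ hA]
      nlinarith
    linarith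

private lemma disc_cont {h : ℂ → ℂ} (hc : ContinuousOn h (Metric.ball 0 1)) {r : ℝ}
    (hr : r ∈ Set.Ioo (0 : ℝ) 1) : Continuous (fun θ : ℝ => h (circleMap 0 r θ)) := by
  refine hc.comp_continuous (continuous_circleMap 0 r) fun θ => ?_
  rw [mem_ball_zero_iff, norm_circleMap_zero, abs_of_pos hr.1]
  exact hr.2

theorem proof_DISC : S_DISC := by
  intro h c M hc h1 h2 h3
  have hpi : 0 < 2 * Real.pi := by positivity
  have key : ∀ A : ℝ, 0 < A → ‖c‖ ≤ M / A := by
    intro A hA
    obtain ⟨r, hrdef⟩ : ∃ r : ℕ → ℝ, r = fun n : ℕ => 1 - 1 / ((n : ℝ) + 2) := ⟨_, rfl⟩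
    have hr : ∀ n, r n ∈ Set.Ioo (0 : ℝ) 1 := by
      intro n
      rw [hrdef]
      have h0 : (0 : ℝ) < (n : ℝ) + 2 := by positivity
      have h4 : 0 < 1 / ((n : ℝ) + 2) := by positivity
      have h5 : 1 / ((n : ℝ) + 2) < 1 := by
        rw [div_lt_one h0]
        have : (0 : ℝ) ≤ n := Nat.cast_nonneg n
        linarith
      exact ⟨by simp only; linarith, by simp only; linarith⟩
    have hrt : Tendsto r atTop (𝓝[<] 1) := by
      refine tendsto_nhdsWithin_iff.2 ⟨?_, Eventually.of_forall fun n => (hr n).2⟩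
      rw [hrdef]
      have h4 : Tendsto (fun n : ℕ => 1 / ((n : ℝ) + 2)) atTop (𝓝 0) := by
        have h5 : Tendsto (fun n : ℕ => (n : ℝ) + 2) atTop atTop :=
          tendsto_atTop_add_const_right _ _ tendsto_natCast_atTop_atTop
        simp only [one_div]
        exact h5.inv_tendsto_atTop
      simpa using (tendsto_const_nhds (x := (1 : ℝ))).sub h4
    have hcont : ∀ n, Continuous (fun θ : ℝ => h (circleMap 0 (r n) θ)) := fun n =>
      disc_cont hc (hr n)
    have hlim : Tendsto (fun n => ∫ θ in (0 : ℝ)..(2 * Real.pi),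
        min ‖h (circleMap 0 (r n) θ)‖ A) atTop (𝓝 0) := by
      have h4 : Tendsto (fun n => ∫ θ in (0 : ℝ)..(2 * Real.pi),
          min ‖h (circleMap 0 (r n) θ)‖ A) atTop (𝓝 (∫ θ in (0 : ℝ)..(2 * Real.pi), (0 : ℝ))) := by
        refine intervalIntegral.tendsto_integral_filter_of_dominated_convergence (fun _ => A)
          ?_ ?_ intervalIntegrable_const ?_
        · refine Eventually.of_forall fun n => ?_
          exact ((hcont n).norm.min continuous_const).aestronglyMeasurable
        · refine Eventually.of_forall fun n => Eventually.of_forall fun θ _ => ?_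
          rw [Real.norm_of_nonneg (le_min (norm_nonneg _) hA.le)]
          exact min_le_right _ _
        · have hne : ∀ᵐ θ : ℝ, θ ≠ 2 * Real.pi := by
            rw [ae_iff]
            simp
          filter_upwards [h3, hne] with θ hθ hθ2 hmem
          rw [Set.uIoc_of_le hpi.le] at hmem
          have h5 := hθ ⟨hmem.1, lt_of_le_of_ne hmem.2 hθ2⟩
          have h6 : Tendsto (fun n => h (circleMap 0 (r n) θ)) atTop (𝓝 0) := h5.comp hrt
          have h7 := h6.norm.min (tendsto_const_nhds (x := A))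
          rw [norm_zero, min_eq_left hA.le] at h7
          exact h7
      simpa using h4
    have hineq : ∀ n, ‖c‖ ≤ (2 * Real.pi)⁻¹ * (∫ θ in (0 : ℝ)..(2 * Real.pi),
        min ‖h (circleMap 0 (r n) θ)‖ A) + M / A := by
      intro n
      have e1 : c = (2 * Real.pi)⁻¹ • ∫ θ in (0 : ℝ)..(2 * Real.pi), h (circleMap 0 (r n) θ) :=
        (h1 (r n) (hr n)).symm
      have e2 : (2 * Real.pi)⁻¹ * ∫ θ in (0 : ℝ)..(2 * Real.pi), ‖h (circleMap 0 (r n) θ)‖ ^ 2 ≤
          M := h2 (r n) (hr n)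
      have e3 : ‖c‖ ≤ (2 * Real.pi)⁻¹ *
          ∫ θ in (0 : ℝ)..(2 * Real.pi), ‖h (circleMap 0 (r n) θ)‖ := by
        rw [e1, norm_smul, Real.norm_of_nonneg (by positivity)]
        refine mul_le_mul_of_nonneg_left ?_ (by positivity)
        exact intervalIntegral.norm_integral_le_integral_norm hpi.le
      have i1 : IntervalIntegrable (fun θ : ℝ => min ‖h (circleMap 0 (r n) θ)‖ A) volume 0
          (2 * Real.pi) := ((hcont n).norm.min continuous_const).intervalIntegrable _ _
      have i2 : IntervalIntegrable (fun θ : ℝ => ‖h (circleMap 0 (r n) θ)‖ ^ 2 / A) volume 0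
          (2 * Real.pi) := (((hcont n).norm.pow 2).div_const A).intervalIntegrable _ _
      have e4 : ∫ θ in (0 : ℝ)..(2 * Real.pi), ‖h (circleMap 0 (r n) θ)‖ ≤
          ∫ θ in (0 : ℝ)..(2 * Real.pi), (min ‖h (circleMap 0 (r n) θ)‖ A +
            ‖h (circleMap 0 (r n) θ)‖ ^ 2 / A) :=
        intervalIntegral.integral_mono hpi.le ((hcont n).norm.intervalIntegrable _ _) (i1.add i2)
          fun θ => disc_pt (norm_nonneg _) hA
      rw [intervalIntegral.integral_add i1 i2, intervalIntegral.integral_div] at e4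
      calc ‖c‖ ≤ _ := e3
        _ ≤ (2 * Real.pi)⁻¹ * ((∫ θ in (0 : ℝ)..(2 * Real.pi), min ‖h (circleMap 0 (r n) θ)‖ A) +
            (∫ θ in (0 : ℝ)..(2 * Real.pi), ‖h (circleMap 0 (r n) θ)‖ ^ 2) / A) :=
          mul_le_mul_of_nonneg_left e4 (by positivity)
        _ = (2 * Real.pi)⁻¹ * (∫ θ in (0 : ℝ)..(2 * Real.pi), min ‖h (circleMap 0 (r n) θ)‖ A) +
            ((2 * Real.pi)⁻¹ * ∫ θ in (0 : ℝ)..(2 * Real.pi), ‖h (circleMap 0 (r n) θ)‖ ^ 2) / A := by
          ring
        _ ≤ _ := by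
          have : ((2 * Real.pi)⁻¹ * ∫ θ in (0 : ℝ)..(2 * Real.pi),
              ‖h (circleMap 0 (r n) θ)‖ ^ 2) / A ≤ M / A := div_le_div_of_nonneg_right e2 hA.le
          linarith
    have hl2 := (hlim.const_mul (2 * Real.pi)⁻¹).add_const (M / A)
    rw [mul_zero, zero_add] at hl2
    exact ge_of_tendsto hl2 (Eventually.of_forall hineq)
  have hfin : Tendsto (fun A : ℝ => M / A) atTop (𝓝 0) := tendsto_const_nhds.div_atTop tendsto_id
  have h4 : ‖c‖ ≤ 0 := ge_of_tendsto hfin (by
    filter_upwards [eventually_gt_atTop (0 : ℝ)] with A hA using key A hA)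
  exact norm_le_zero_iff.1 h4

end Pool.Agent.N742.HN
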