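import Pool.Agent.N742.HN.Stm

/-! Project HN (helper742), part EN: finite logarithmic energy, by helper602. -/

set_option autoImplicit false

open MeasureTheory Complex Filter Topology

namespace Pool.Agent.N742.HN

/-- the pairs which agree in the first `n` places -/
def enA (n : ℕ) : Set ((ℕ → Bool) × (ℕ → Bool)) := {p | ∀ i < n, p.1 i = p.2 i}

theorem en_meas (n : ℕ) : MeasurableSet (enA n) := by
  have h : enA n = ⋂ i : ℕ, ⋂ _ : i < n, {p : (ℕ → Bool) × (ℕ → Bool) | p.1 i = p.2 i} := by
    ext p
    simp [enA]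
  rw [h]
  refine MeasurableSet.iInter fun i => MeasurableSet.iInter fun _ => ?_
  exact measurableSet_eq_fun ((measurable_pi_apply i).comp measurable_fst)
    ((measurable_pi_apply i).comp measurable_snd)

theorem en_first {p : (ℕ → Bool) × (ℕ → Bool)} (h : p.1 ≠ p.2) :
    ∃ n, (∀ i < n, p.1 i = p.2 i) ∧ p.1 n ≠ p.2 n := by
  classical
  have hex : ∃ n, p.1 n ≠ p.2 n := by
    by_contra hcon
    push Not at hcon
    exact h (funext hcon)
  exact ⟨Nat.find hex, fun i hi => not_not.1 (Nat.find_min hex hi), Nat.find_spec hex⟩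

theorem en_bound (hSEP : S_SEP) (p : (ℕ → Bool) × (ℕ → Bool)) :
    ENNReal.ofReal |Real.log (|X p.1 - X p.2|)| ≤
      ENNReal.ofReal (Real.log 3) * ∑' n : ℕ, (enA n).indicator 1 p := by
  by_cases h : p.1 = p.2
  · rw [h, sub_self, abs_zero, Real.log_zero, abs_zero, ENNReal.ofReal_zero]
    exact zero_le
  · obtain ⟨n, hn1, hn2⟩ := en_first h
    have h1 := hSEP.2 p.1 p.2 n hn1 hn2
    have h2 : |X p.1 - X p.2| ≤ 1 := by
      have h3 := hSEP.1 p.1
      have h4 := hSEP.1 p.2
      rw [abs_le]
      constructor <;> linarith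
    have h3 : (0 : ℝ) < (1 / 3) ^ (n + 1) := by positivity
    have h4 : Real.log |X p.1 - X p.2| ≤ 0 := Real.log_nonpos (abs_nonneg _) h2
    have h5 := Real.log_le_log h3 h1
    rw [Real.log_pow, one_div, Real.log_inv] at h5
    have h6 : |Real.log (|X p.1 - X p.2|)| ≤ Real.log 3 * ((n + 1 : ℕ) : ℝ) := by
      rw [abs_of_nonpos h4]
      linarith
    have hlog : 0 ≤ Real.log 3 := Real.log_nonneg (by norm_num)
    calc ENNReal.ofReal |Real.log (|X p.1 - X p.2|)| ≤ ENNReal.ofReal (Real.log 3 * ((n + 1 : ℕ) : ℝ)) :=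
          ENNReal.ofReal_le_ofReal h6
      _ = ENNReal.ofReal (Real.log 3) * ((n + 1 : ℕ) : ENNReal) := by
          rw [ENNReal.ofReal_mul hlog, ENNReal.ofReal_natCast]
      _ = ENNReal.ofReal (Real.log 3) * ∑ m ∈ Finset.range (n + 1), (enA m).indicator 1 p := by
          congr 1
          rw [Finset.sum_congr rfl (fun m hm => Set.indicator_of_mem (s := enA m) (a := p)
            (show p ∈ enA m from fun i hi => hn1 i (by
              have := Finset.mem_range.1 hm
              omega)) 1)]
          simp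
      _ ≤ ENNReal.ofReal (Real.log 3) * ∑' m : ℕ, (enA m).indicator 1 p := by
          gcongr
          exact ENNReal.sum_le_tsum _

theorem proof_EN (hXC : S_XC) (hSEP : S_SEP) : S_EN := by
  intro P hP hcoin
  have hX : Measurable X := Continuous.measurable hXC
  have hL : Measurable (fun p : (ℕ → Bool) × (ℕ → Bool) => Real.log |X p.1 - X p.2|) :=
    Real.measurable_log.comp (continuous_abs.measurable.comp
      ((hX.comp measurable_fst).sub (hX.comp measurable_snd)))
  refine ⟨⟨hL.aestronglyMeasurable, ?_⟩, ?_⟩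
  · unfold HasFiniteIntegral
    calc ∫⁻ p, ‖Real.log |X p.1 - X p.2|‖ₑ ∂(P.prod P)
        ≤ ∫⁻ p, ENNReal.ofReal (Real.log 3) * ∑' n : ℕ, (enA n).indicator 1 p ∂(P.prod P) := by
          refine lintegral_mono fun p => ?_
          rw [Real.enorm_eq_ofReal_abs]
          exact en_bound hSEP p
      _ = ENNReal.ofReal (Real.log 3) * ∑' n : ℕ, (P.prod P) (enA n) := by
          rw [lintegral_const_mul' _ _ ENNReal.ofReal_ne_top, lintegral_tsum]
          · congr 1
            refine tsum_congr fun n => ?_
            rw [lintegral_indicator_one (en_meas n)]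
          · intro n
            exact (measurable_one.indicator (en_meas n)).aemeasurable
      _ ≤ ENNReal.ofReal (Real.log 3) * ∑' n : ℕ, (1 / 2 : ENNReal) ^ n := by
          gcongr with n
          exact hcoin n
      _ < ⊤ := by
          rw [ENNReal.tsum_geometric]
          refine ENNReal.mul_lt_top ENNReal.ofReal_lt_top ?_
          rw [one_div, ENNReal.one_sub_inv_two, inv_inv]
          exact ENNReal.ofNat_lt_top
  · have h1 : ∀ n : ℕ, (P.prod P) {p : (ℕ → Bool) × (ℕ → Bool) | X p.1 = X p.2} ≤ (1 / 2 : ENNReal) ^ n := by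
      intro n
      refine (measure_mono ?_).trans (hcoin n)
      intro p hp
      have h2 : X p.1 = X p.2 := hp
      by_cases h : p.1 = p.2
      · intro i _
        rw [h]
      · obtain ⟨m, hm1, hm2⟩ := en_first h
        have h3 := hSEP.2 p.1 p.2 m hm1 hm2
        rw [h2, sub_self, abs_zero] at h3
        have h4 : (0 : ℝ) < (1 / 3) ^ (m + 1) := by positivity
        linarith
    have h2 : Tendsto (fun n : ℕ => (1 / 2 : ENNReal) ^ n) atTop (𝓝 0) := by
      apply ENNReal.tendsto_pow_atTop_nhds_zero_of_lt_one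
      rw [one_div]
      exact ENNReal.inv_lt_one.2 (by norm_num)
    exact le_antisymm (ge_of_tendsto' h2 h1) zero_le

end Pool.Agent.N742.HN
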