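import Pool.Agent.N742.HN.Asm

set_option autoImplicit false

open MeasureTheory Complex Filter Topology

namespace Pool.Agent.N742.HN

theorem fin_main (hXC : S_XC) (hNULL : S_NULL) (hCAP : S_CAP) (hCON : S_CON) (hCST : S_CST) :
    ¬ (∀ Ω : Set ℂ, IsOpen Ω → IsConnected Ω →
      (∃ K : Set ℂ, IsCompact K ∧ K ⊆ Ωᶜ ∧
        ∃ μ : MeasureTheory.Measure ℂ, MeasureTheory.IsProbabilityMeasure μ ∧
          MeasureTheory.NoAtoms μ ∧ μ Kᶜ = 0 ∧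
          MeasureTheory.Integrable (fun p : ℂ × ℂ => Real.log ‖p.1 - p.2‖) (μ.prod μ)) →
      ∃ f : ℂ → ℂ, DifferentiableOn ℂ f Ω ∧
        (∃ u : ℂ → ℝ,
          (∀ z ∈ Ω, ∃ r > 0, Metric.ball z r ⊆ Ω ∧
            ∃ g : ℂ → ℂ, DifferentiableOn ℂ g (Metric.ball z r) ∧
              ∀ w ∈ Metric.ball z r, u w = (g w).re) ∧
          ∀ z ∈ Ω, ‖f z‖ ^ 2 ≤ u z) ∧
        ∃ z ∈ Ω, ∃ w ∈ Ω, f z ≠ f w) := by
  intro h
  have hXc : Continuous X := hXC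
  have hEc : IsCompact (Set.range X) := isCompact_range hXc
  obtain ⟨hop, hcon⟩ := hCON (Set.range X) hEc hNULL
  obtain ⟨μ, h1, h2, h3, h4⟩ := hCAP
  obtain ⟨f, hf, ⟨u, hu, hfu⟩, z, hz, w, hw, hne⟩ := h (emb '' Set.range X)ᶜ hop hcon
    ⟨emb '' Set.range X, hEc.image asm_emb_cont, by rw [compl_compl], μ, h1, h2, h3, h4⟩
  obtain ⟨c, hc⟩ := hCST (Set.range X) f u hEc hNULL hf hu hfu
  exact hne ((hc z hz).trans (hc w hw).symm)

end Pool.Agent.N742.HN
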