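import Pool.Agent.N742.HN.Stm

/-! Project HN (helper742), part MEAN (helper793). -/

set_option autoImplicit false

open MeasureTheory Complex Filter Topology Metric

namespace Pool.Agent.N742.HN

private theorem mean_harm {u : ℂ → ℝ} (hu : LocRe H u) {p : ℂ → ℂ}
    (hd : DifferentiableOn ℂ p (ball 0 1)) (hp : ∀ w ∈ ball (0 : ℂ) 1, p w ∈ H) (w : ℂ) (hw : w ∈ ball (0 : ℂ) 1) :
    InnerProductSpace.HarmonicAt (fun w => u (p w)) w := by
  obtain ⟨R, hR, -, g, hg, hug⟩ := hu (p w) (hp w hw)
  have hpc : ContinuousAt p w := (hd.differentiableAt (isOpen_ball.mem_nhds hw)).continuousAt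
  have hev : ∀ᶠ w' in 𝓝 w, w' ∈ ball (0 : ℂ) 1 ∧ p w' ∈ ball (p w) R :=
    Filter.Eventually.and (isOpen_ball.mem_nhds hw) (hpc (ball_mem_nhds _ hR))
  have hcongr : (fun w' => u (p w')) =ᶠ[𝓝 w] fun w' => (g (p w')).re := by
    filter_upwards [hev] with w' h
    exact hug _ h.2
  rw [InnerProductSpace.harmonicAt_congr_nhds hcongr]
  have han : AnalyticAt ℂ (fun w' => g (p w')) w := by
    have h1 : AnalyticAt ℂ g (p w) := hg.analyticAt (ball_mem_nhds _ hR)
    have h2 : AnalyticAt ℂ p w := hd.analyticAt (isOpen_ball.mem_nhds hw)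
    exact h1.comp h2
  exact han.harmonicAt_re

theorem proof_MEAN (hPHI : S_PHI) : S_MEAN := by
  intro f u a b hb hf hu hfu r hr
  obtain ⟨h0, hd, hH, -, -⟩ := hPHI a b hb
  have hr0 : |r| = r := abs_of_pos hr.1
  have hsub : closedBall (0 : ℂ) |r| ⊆ ball 0 1 := by
    rw [hr0]
    exact closedBall_subset_ball hr.2
  have hF : DifferentiableOn ℂ (fun w => f (phi a b w)) (ball 0 1) := hf.comp hd hH
  have hFc : ContinuousOn (fun w => f (phi a b w)) (closedBall 0 |r|) := hF.continuousOn.mono hsub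
  have hDC : DiffContOnCl ℂ (fun w => f (phi a b w)) (ball 0 |r|) :=
    (hF.mono ((closure_mono ball_subset_closedBall).trans (by rw [isClosed_closedBall.closure_eq]; exact hsub))).diffContOnCl
  have hharm : InnerProductSpace.HarmonicOnNhd (fun w => u (phi a b w)) (closedBall 0 |r|) :=
    fun w hw => mean_harm hu hd hH w (hsub hw)
  refine ⟨?_, ?_⟩
  · rw [hDC.circleAverage, h0]
  · have h1 := hharm.circleAverage_eq
    rw [h0] at h1
    rw [← h1]
    refine Real.circleAverage_mono ?_ ?_ ?_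
    · exact ((hFc.norm.pow 2).mono sphere_subset_closedBall).circleIntegrable'
    · exact (hharm.continuousOn.mono sphere_subset_closedBall).circleIntegrable'
    · intro w hw
      exact hfu _ (hH w (hsub (sphere_subset_closedBall hw)))

end Pool.Agent.N742.HN
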