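import Pool.Agent.N742.HN.Stm

/-!
# HN/NULL: continuity of `X`, and the Cantor set is a null set

Author: helper488 (project HN of helper742, page MP_e5f19a_an).
-/

set_option autoImplicit false

open MeasureTheory Complex Filter Topology

namespace Pool.Agent.N742.HN

private theorem null_sum_u : Summable fun i : ℕ => (2 : ℝ) * (1 / 3 : ℝ) ^ (i + 1) := by
  have h : Summable fun i : ℕ => (1 / 3 : ℝ) ^ i :=
    summable_geometric_of_lt_one (by norm_num) (by norm_num)
  exact ((summable_nat_add_iff 1).2 h).mul_left 2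

private theorem null_term_le (i : ℕ) (ω : ℕ → Bool) :
    ‖(if ω i then (2 : ℝ) else 0) * (1 / 3 : ℝ) ^ (i + 1)‖ ≤ 2 * (1 / 3 : ℝ) ^ (i + 1) := by
  have h0 : (0 : ℝ) ≤ (1 / 3 : ℝ) ^ (i + 1) := by positivity
  rw [norm_mul, Real.norm_of_nonneg h0]
  refine mul_le_mul_of_nonneg_right ?_ h0
  split_ifs <;> norm_num

private theorem null_summable (ω : ℕ → Bool) :
    Summable fun i : ℕ => (if ω i then (2 : ℝ) else 0) * (1 / 3 : ℝ) ^ (i + 1) :=
  Summable.of_norm_bounded null_sum_u fun i => null_term_le i ω

theorem proof_XC : S_XC := by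
  unfold S_XC X
  refine continuous_tsum (fun i => ?_) null_sum_u null_term_le
  refine Continuous.mul ?_ continuous_const
  exact (continuous_of_discreteTopology (f := fun b : Bool => if b then (2 : ℝ) else 0)).comp
    (continuous_apply i)

private theorem null_shift (ω : ℕ → Bool) :
    3 * X ω = (if ω 0 then (2 : ℝ) else 0) + X (fun i => ω (i + 1)) := by
  unfold X
  rw [(null_summable ω).tsum_eq_zero_add, mul_add]
  congr 1
  · split_ifs <;> norm_num
  · rw [← tsum_mul_left]
    refine tsum_congr fun i => ?_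
    ring

theorem proof_NULL : S_NULL := by
  have hc : IsCompact (Set.range X) := isCompact_range proof_XC
  have hfin : volume (Set.range X) ≠ ⊤ := hc.measure_lt_top.ne
  have hsub : Set.range X ⊆ (fun x : ℝ => 3 * x) ⁻¹' Set.range X ∪
      (fun x : ℝ => 3 * x) ⁻¹' ((fun x : ℝ => x + (-2)) ⁻¹' Set.range X) := by
    rintro x ⟨ω, rfl⟩
    have h := null_shift ω
    by_cases h0 : ω 0 = true
    · right
      refine ⟨fun i => ω (i + 1), ?_⟩
      rw [h0, if_pos rfl] at h
      show X (fun i => ω (i + 1)) = 3 * X ω + (-2)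
      linarith
    · left
      refine ⟨fun i => ω (i + 1), ?_⟩
      rw [if_neg h0] at h
      show X (fun i => ω (i + 1)) = 3 * X ω
      linarith
  have h3 : (3 : ℝ) ≠ 0 := by norm_num
  have h1 : volume (Set.range X) ≤ ENNReal.ofReal (1 / 3) * volume (Set.range X) +
      ENNReal.ofReal (1 / 3) * volume (Set.range X) := by
    refine (measure_mono hsub).trans ((measure_union_le _ _).trans (le_of_eq ?_))
    have e : |(3 : ℝ)⁻¹| = 1 / 3 := by rw [abs_of_pos (by norm_num)]; norm_num
    rw [Real.volume_preimage_mul_left h3, Real.volume_preimage_mul_left h3,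
      measure_preimage_add_right, e]
  have h2 := ENNReal.toReal_mono (by
    simp [ENNReal.mul_eq_top, hfin]) h1
  rw [ENNReal.toReal_add (by simp [ENNReal.mul_eq_top, hfin])
    (by simp [ENNReal.mul_eq_top, hfin]), ENNReal.toReal_mul,
    ENNReal.toReal_ofReal (by norm_num)] at h2
  have h4 : (volume (Set.range X)).toReal = 0 := by
    have := ENNReal.toReal_nonneg (a := volume (Set.range X))
    linarith
  rcases (ENNReal.toReal_eq_zero_iff _).1 h4 with h | h
  · exact h
  · exact absurd h hfin

end Pool.Agent.N742.HN
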