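import Pool.Agent.N742.HN.Stm
set_option autoImplicit false
open MeasureTheory Complex Filter Topology
namespace Pool.Agent.N742.HN

theorem proof_PHIm : S_PHI := by
  intro a b hb
  have hne : ∀ w ∈ Metric.ball (0 : ℂ) 1, (1 - w) ≠ 0 := by
    intro w hw h
    have : w = 1 := (sub_eq_zero.mp h).symm
    simp [this] at hw
  refine ⟨by simp [phi], ?_, ?_, ?_, ?_⟩
  · unfold phi
    intro w hw
    have h1 := hne w hw
    apply DifferentiableAt.differentiableWithinAt
    fun_prop (disch := exact h1)
  · intro w hw
    have h1 := hne w hw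
    have hn : 0 < Complex.normSq (1 - w) := Complex.normSq_pos.mpr h1
    have hw1 : Complex.normSq w < 1 := by
      rw [Complex.normSq_eq_norm_sq]
      have : ‖w‖ < 1 := by simpa using hw
      nlinarith [norm_nonneg w]
    have hre : ((1 + w) / (1 - w)).re = (1 - Complex.normSq w) / Complex.normSq (1 - w) := by
      rw [Complex.div_re, ← add_div]
      congr 1
      simp [Complex.normSq_apply]
      ring
    simp only [H, Set.mem_ofPred_eq, phi, Complex.add_im, Complex.ofReal_im, zero_add, Complex.im_ofReal_mul]
    have : (Complex.I * ((1 + w) / (1 - w))).im = ((1 + w) / (1 - w)).re := by simp [Complex.mul_im]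
    rw [this, hre]
    have : 0 < 1 - Complex.normSq w := by linarith
    positivity
  · intro θ hθ
    have hc : circleMap 0 1 θ = Complex.exp (θ * Complex.I) := by simp [circleMap]
    refine ⟨(phi a b (circleMap 0 1 θ)).re, ?_⟩
    unfold emb
    apply Complex.ext
    · simp
    · rw [Complex.ofReal_im]
      have hre : ((1 + circleMap 0 1 θ) / (1 - circleMap 0 1 θ)).re = 0 := by
        rw [Complex.div_re, ← add_div]
        have : (1 + circleMap 0 1 θ).re * (1 - circleMap 0 1 θ).re + (1 + circleMap 0 1 θ).im * (1 - circleMap 0 1 θ).im = 1 - Complex.normSq (circleMap 0 1 θ) := by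
          simp [Complex.normSq_apply]
          ring
        rw [this, Complex.normSq_eq_norm_sq]
        simp
      simp only [phi, Complex.add_im, Complex.ofReal_im, zero_add, Complex.im_ofReal_mul]
      have h2 : (Complex.I * ((1 + circleMap 0 1 θ) / (1 - circleMap 0 1 θ))).im = ((1 + circleMap 0 1 θ) / (1 - circleMap 0 1 θ)).re := by simp [Complex.mul_im]
      rw [h2, hre, mul_zero]
  · intro θ hθ
    have h1 : (1 - circleMap 0 1 θ) ≠ 0 := by
      intro h
      have h2 : circleMap 0 1 θ = 1 := (sub_eq_zero.mp h).symm
      have h3 : (circleMap 0 1 θ).re = 1 := by rw [h2]; simp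
      have h4 : (circleMap 0 1 θ).re = Real.cos θ := by
        simp [circleMap, Complex.exp_ofReal_mul_I_re]
      rw [h4] at h3
      rw [Real.cos_eq_one_iff_of_lt_of_lt (by linarith [hθ.1, Real.pi_pos]) hθ.2] at h3
      linarith [hθ.1]
    have hcont : ContinuousAt (phi a b) (circleMap 0 1 θ) := by
      unfold phi
      apply DifferentiableAt.continuousAt (𝕜 := ℂ)
      fun_prop (disch := exact h1)
    have hc2 : Tendsto (fun r : ℝ => circleMap 0 r θ) (𝓝[<] 1) (𝓝 (circleMap 0 1 θ)) := by
      have : Continuous (fun r : ℝ => circleMap 0 r θ) := by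
        unfold circleMap
        fun_prop
      exact (this.tendsto 1).mono_left nhdsWithin_le_nhds
    exact hcont.tendsto.comp hc2

end Pool.Agent.N742.HN
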