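import Pool.Agent.N742.HN.Stm

set_option autoImplicit false

open MeasureTheory Complex Filter Topology

namespace Pool.Agent.N742.HN

private lemma ref_norm (x : ℂ) : ‖cj x‖ = ‖x‖ := by
  unfold cj
  exact RCLike.norm_conj x

private lemma ref_cjcj (x : ℂ) : cj (cj x) = x := by
  unfold cj
  exact Complex.conj_conj x

private lemma ref_ball {z w : ℂ} {r : ℝ} (hw : w ∈ Metric.ball z r) :
    cj w ∈ Metric.ball (cj z) r := by
  rw [Metric.mem_ball, dist_eq_norm] at hw ⊢
  have h : cj w - cj z = cj (w - z) := by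
    unfold cj
    rw [map_sub]
  rw [h, ref_norm]
  exact hw

private lemma ref_diff {g : ℂ → ℂ} {z : ℂ} (hg : DifferentiableAt ℂ g (cj z)) :
    DifferentiableAt ℂ (fun w => cj (g (cj w))) z := by
  have h2 := DifferentiableAt.conj_conj hg
  have h3 : (starRingEnd ℂ) (cj z) = z := ref_cjcj z
  rw [h3] at h2
  exact h2

theorem proof_REF : S_REF := by
  intro U f u hU hUo hf hu hfu
  refine ⟨?_, ?_, ?_⟩
  · intro z hz
    exact (ref_diff (hf.differentiableAt (hUo.mem_nhds (hU z hz)))).differentiableWithinAt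
  · intro z hz
    obtain ⟨r, hr, hb, g, hg, hgu⟩ := hu (cj z) (hU z hz)
    refine ⟨r, hr, ?_, fun w => cj (g (cj w)), ?_, ?_⟩
    · intro w hw
      have h1 := hU _ (hb (ref_ball hw))
      rw [ref_cjcj] at h1
      exact h1
    · intro w hw
      exact (ref_diff (hg.differentiableAt
        (Metric.isOpen_ball.mem_nhds (ref_ball hw)))).differentiableWithinAt
    · intro w hw
      show u (cj w) = (cj (g (cj w))).re
      rw [hgu _ (ref_ball hw)]
      unfold cj
      rw [Complex.conj_re]
  · intro z hz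
    rw [ref_norm]
    exact hfu _ (hU z hz)

end Pool.Agent.N742.HN
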