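import Pool.Agent.N742.HN.Stm

set_option autoImplicit false

open MeasureTheory Complex Filter Topology

namespace Pool.Agent.N742.HN

theorem proof_RIG : S_RIG := by
  intro f g hf hg hfg
  have hopen : IsOpen H := isOpen_lt continuous_const Complex.continuous_im
  have hconv : Convex ℝ H := convex_halfSpace_im_gt 0
  have hd : ∀ z ∈ H, deriv f z = 0 := by
    intro z hz
    have hzn : H ∈ 𝓝 z := hopen.mem_nhds hz
    have h1 : HasDerivAt f (deriv f z) z := ((hf z hz).differentiableAt hzn).hasDerivAt
    have h2 : HasDerivAt g (deriv g z) z := ((hg z hz).differentiableAt hzn).hasDerivAt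
    have h3 := h1.complexToReal_fderiv
    have h4 := h2.complexToReal_fderiv
    have h5 : HasFDerivAt (fun w => cj (g w))
        ((Complex.conjCLE : ℂ →L[ℝ] ℂ).comp (deriv g z • (1 : ℂ →L[ℝ] ℂ))) z :=
      (Complex.conjCLE : ℂ →L[ℝ] ℂ).hasFDerivAt.comp z h4
    have h6 : f =ᶠ[𝓝 z] fun w => cj (g w) := by
      filter_upwards [hzn] with w hw
      exact hfg w hw
    have h7 := h3.unique (h5.congr_of_eventuallyEq h6)
    have e1 := congrArg (fun L : ℂ →L[ℝ] ℂ => L 1) h7
    have e2 := congrArg (fun L : ℂ →L[ℝ] ℂ => L Complex.I) h7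
    simp at e1 e2
    have e3 : deriv f z * Complex.I = -(deriv f z * Complex.I) := by
      rw [e1] at e2 ⊢
      linear_combination e2
    have e4 : deriv f z * Complex.I = 0 := by linear_combination e3 / 2
    exact (mul_eq_zero.1 e4).resolve_right Complex.I_ne_zero
  refine ⟨f Complex.I, fun z hz => ?_⟩
  exact hopen.is_const_of_deriv_eq_zero hconv.isPreconnected hf hd hz
    (by show (0 : ℝ) < Complex.I.im; simp)

end Pool.Agent.N742.HN
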