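import Pool.Agent.N742.HN.Stm

set_option autoImplicit false

/-! # HN/SEP: separation of the points of the Cantor set (helper596) -/

namespace Pool.Agent.N742.HN

private lemma sep_geo : HasSum (fun i : ℕ => (2 : ℝ) * (1 / 3 : ℝ) ^ (i + 1)) 1 := by
  have h := (hasSum_geometric_of_lt_one (r := (1 / 3 : ℝ)) (by norm_num) (by norm_num)).mul_left
    (2 / 3 : ℝ)
  have h1 : (2 / 3 : ℝ) * (1 - 1 / 3)⁻¹ = 1 := by norm_num
  rw [h1] at h
  have h2 : (fun i : ℕ => (2 / 3 : ℝ) * (1 / 3 : ℝ) ^ i) =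
      fun i : ℕ => (2 : ℝ) * (1 / 3 : ℝ) ^ (i + 1) := by
    funext i
    rw [pow_succ]; ring
  rwa [h2] at h

private lemma sep_nn (ω : ℕ → Bool) (i : ℕ) :
    0 ≤ (if ω i then (2 : ℝ) else 0) * (1 / 3 : ℝ) ^ (i + 1) := by
  split_ifs <;> positivity

private lemma sep_le (ω : ℕ → Bool) (i : ℕ) :
    (if ω i then (2 : ℝ) else 0) * (1 / 3 : ℝ) ^ (i + 1) ≤ 2 * (1 / 3 : ℝ) ^ (i + 1) := by
  refine mul_le_mul_of_nonneg_right ?_ (by positivity)
  split_ifs <;> norm_num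

private lemma sep_sum (ω : ℕ → Bool) :
    Summable (fun i : ℕ => (if ω i then (2 : ℝ) else 0) * (1 / 3 : ℝ) ^ (i + 1)) :=
  Summable.of_nonneg_of_le (sep_nn ω) (sep_le ω) sep_geo.summable

private lemma sep_bd (ω : ℕ → Bool) : 0 ≤ X ω ∧ X ω ≤ 1 := by
  unfold X
  refine ⟨tsum_nonneg (sep_nn ω), ?_⟩
  exact ((sep_sum ω).tsum_le_tsum (sep_le ω) sep_geo.summable).trans (le_of_eq sep_geo.tsum_eq)

private lemma sep_rec (ω : ℕ → Bool) :
    X ω = ((if ω 0 then (2 : ℝ) else 0) + X (fun i => ω (i + 1))) / 3 := by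
  unfold X
  rw [(sep_sum ω).tsum_eq_zero_add]
  have h : ∑' i : ℕ, (if ω (i + 1) then (2 : ℝ) else 0) * (1 / 3 : ℝ) ^ (i + 1 + 1) =
      (1 / 3) * ∑' i : ℕ, (if ω (i + 1) then (2 : ℝ) else 0) * (1 / 3 : ℝ) ^ (i + 1) := by
    rw [← tsum_mul_left]
    refine tsum_congr fun i => ?_
    rw [pow_succ (1 / 3 : ℝ) (i + 1)]; ring
  rw [h]
  ring

private lemma sep_main (n : ℕ) : ∀ ω ω' : ℕ → Bool, (∀ i < n, ω i = ω' i) → ω n ≠ ω' n →
    (1 / 3 : ℝ) ^ (n + 1) ≤ |X ω - X ω'| := by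
  induction n with
  | zero =>
    intro ω ω' _ h
    have h1 := sep_bd (fun i => ω (i + 1))
    have h2 := sep_bd (fun i => ω' (i + 1))
    rw [sep_rec ω, sep_rec ω']
    cases h3 : ω 0 <;> cases h4 : ω' 0
    · exact absurd (h3.trans h4.symm) h
    · rw [abs_sub_comm]
      refine le_trans ?_ (le_abs_self _)
      simp only [Bool.false_eq_true, if_false, if_true]
      linarith [h1.2, h2.1]
    · refine le_trans ?_ (le_abs_self _)
      simp only [Bool.false_eq_true, if_false, if_true]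
      linarith [h1.1, h2.2]
    · exact absurd (h3.trans h4.symm) h
  | succ n ih =>
    intro ω ω' h0 h
    have h1 := ih (fun i => ω (i + 1)) (fun i => ω' (i + 1)) (fun i hi => h0 (i + 1) (by omega)) h
    rw [sep_rec ω, sep_rec ω', h0 0 (by omega)]
    have h2 : ((if ω' 0 = true then (2 : ℝ) else 0) + X (fun i => ω (i + 1))) / 3 -
        ((if ω' 0 = true then (2 : ℝ) else 0) + X (fun i => ω' (i + 1))) / 3 =
        (1 / 3) * (X (fun i => ω (i + 1)) - X (fun i => ω' (i + 1))) := by ring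
    rw [h2, abs_mul, abs_of_pos (by norm_num : (0 : ℝ) < 1 / 3), pow_succ, mul_comm]
    exact mul_le_mul_of_nonneg_left h1 (by norm_num)

theorem proof_SEP : S_SEP := ⟨sep_bd, fun ω ω' n h1 h2 => sep_main n ω ω' h1 h2⟩

end Pool.Agent.N742.HN
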